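import Mathlib
import Pool.Agent.Lib_helper15.PENT.TBox
import Pool.Agent.Lib_helper15.PENT.TDet

set_option autoImplicit false

namespace Pool.Agent.PENT

open Finset

theorem s2_fin5 {p : Fin 5 → Prop} (h0 : p 0) (h1 : p 1) (h2 : p 2) (h3 : p 3) (h4 : p 4) :
    ∀ i, p i := by
  intro i
  fin_cases i
  · exact h0
  · exact h1
  · exact h2
  · exact h3
  · exact h4

/-- positivity of the first coordinate -/
theorem s2_pos1 {k : ℕ} {s a b : ℝ} {u : ℤ × ℤ} (hs : 0 < s) (ha : 0 < a)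
    (h : Bx k s a b u) : 0 < u.1 := by
  have h1 : (0 : ℝ) < (u.1 : ℝ) := lt_trans (mul_pos hs ha) h.1
  exact_mod_cast h1

theorem s2_pos2 {k : ℕ} {s a b : ℝ} {u : ℤ × ℤ} (hs : 0 < s) (hb : 0 < b)
    (h : Bx k s a b u) : 0 < u.2 := by
  have h1 : (0 : ℝ) < (u.2 : ℝ) := lt_trans (mul_pos hs hb) h.2.2.1
  exact_mod_cast h1

theorem s2_low {k : ℕ} {s a b z : ℝ} {u : ℤ × ℤ} (hs : 0 < s) (hab : 1 ≤ a + b)
    (h : Bx k s a b u) (hz : z ≤ s) : z ≤ (nm u : ℝ) := by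
  obtain ⟨h1, _, h3, _⟩ := h
  have e : (nm u : ℝ) = (u.1 : ℝ) + u.2 := by simp only [nm]; push_cast; ring
  rw [e]
  nlinarith

theorem s2_nmle {k : ℕ} {s a b : ℝ} {u : ℤ × ℤ}
    (h : Bx k s a b u) : (nm u : ℝ) ≤ (101 / 100 : ℝ) ^ k * (s * (a + b)) := by
  obtain ⟨_, h2, _, h4⟩ := h
  have e : (nm u : ℝ) = (u.1 : ℝ) + u.2 := by simp only [nm]; push_cast; ring
  rw [e]
  nlinarith

theorem s2_upp {k : ℕ} (hk : k ≤ 3) {s a b z : ℝ} {u : ℤ × ℤ} (hs : 0 < s) (hab0 : 0 ≤ a + b)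
    (hab : a + b ≤ 16) (h : Bx k s a b u) (hz : 20 * s ≤ z) : (nm u : ℝ) ≤ z := by
  have h1 := s2_nmle h
  have h2 : (101 / 100 : ℝ) ^ k ≤ 5 / 4 :=
    (pow_le_pow_right₀ (by norm_num) hk).trans (by norm_num)
  have h3 : s * (a + b) ≤ s * 16 := mul_le_mul_of_nonneg_left hab hs.le
  have h4 : 0 ≤ s * (a + b) := mul_nonneg hs.le hab0
  have h5 : (101 / 100 : ℝ) ^ k * (s * (a + b)) ≤ 5 / 4 * (s * 16) :=
    mul_le_mul h2 h3 h4 (by norm_num)
  linarith

theorem s2_sep {k l : ℕ} (hkl : k + l ≤ 6) {s s' a b a' b' : ℝ} {u v : ℤ × ℤ} (hs : 0 < s)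
    (hs' : 0 < s') (ha : 0 < a) (hb : 0 < b) (ha' : 0 < a') (hb' : 0 < b')
    (hu : Bx k s a b u) (hv : Bx l s' a' b' v)
    (hc : 1 / 20 * (1062 / 1000 * ((a + b) * (a' + b'))) ≤ a * b' - 1062 / 1000 * (b * a')) :
    1 / 20 * ((nm u : ℝ) * (nm v : ℝ)) ≤ (dt u v : ℝ) := by
  have h1 := bx_dt hkl hs hs' ha hb ha' hb' hu hv
  have h2 := s2_nmle hu
  have h3 := s2_nmle hv
  have h5 : (101 / 100 : ℝ) ^ k * (101 / 100 : ℝ) ^ l ≤ 1062 / 1000 := by
    rw [← pow_add]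
    calc (101 / 100 : ℝ) ^ (k + l) ≤ (101 / 100 : ℝ) ^ 6 := pow_le_pow_right₀ (by norm_num) hkl
      _ ≤ _ := by norm_num
  have hv0 : (0 : ℝ) ≤ (nm v : ℝ) := by
    have e1 := s2_pos1 hs' ha' hv
    have e2 := s2_pos2 hs' hb' hv
    have e3 : 0 ≤ nm v := by
      simp only [nm]
      omega
    exact_mod_cast e3
  have hss : 0 < s * s' := mul_pos hs hs'
  have h6 : (nm u : ℝ) * (nm v : ℝ) ≤
      ((101 / 100 : ℝ) ^ k * (s * (a + b))) * ((101 / 100 : ℝ) ^ l * (s' * (a' + b'))) :=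
    mul_le_mul h2 h3 hv0 (by positivity)
  have h7 : ((101 / 100 : ℝ) ^ k * (s * (a + b))) * ((101 / 100 : ℝ) ^ l * (s' * (a' + b'))) ≤
      1062 / 1000 * ((s * (a + b)) * (s' * (a' + b'))) := by
    calc _ = ((101 / 100 : ℝ) ^ k * (101 / 100 : ℝ) ^ l) *
          ((s * (a + b)) * (s' * (a' + b'))) := by ring
      _ ≤ _ := mul_le_mul_of_nonneg_right h5 (by positivity)
  have h8 := mul_le_mul_of_nonneg_left hc hss.le
  have h9 : 1062 / 1000 * ((s * (a + b)) * (s' * (a' + b'))) =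
      s * s' * (1062 / 1000 * ((a + b) * (a' + b'))) := by ring
  have h10 : s * s' * (1 / 20 * (1062 / 1000 * ((a + b) * (a' + b')))) =
      1 / 20 * (s * s' * (1062 / 1000 * ((a + b) * (a' + b')))) := by ring
  linarith

/-- the coprimality facts -/
theorem s2_cop (D T0 T1 T2 T3 T4 T5 : ℤ)
    (c1 : IsCoprime T1 (D * T0)) (c2 : IsCoprime T2 (D * T0 * T1))
    (c3 : IsCoprime T3 (D * T0 * T1 * T2))
    (c4 : IsCoprime T4 (T3 * T0 * T1 * T2 * (T0 * T3 - T1 * T2)))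
    (c5 : IsCoprime T5 (D * T0 * T1 * T2 * T4)) :
    (IsCoprime T1 D ∧ IsCoprime T1 T0 ∧ IsCoprime T2 D ∧ IsCoprime T2 T0 ∧ IsCoprime T2 T1) ∧
    (IsCoprime T3 D ∧ IsCoprime T3 T0 ∧ IsCoprime T3 T1 ∧ IsCoprime T3 T2) ∧
    (IsCoprime T4 T3 ∧ IsCoprime T4 T0 ∧ IsCoprime T4 T1 ∧ IsCoprime T4 T2 ∧
      IsCoprime T4 (T0 * T3 - T1 * T2)) ∧
    (IsCoprime T5 D ∧ IsCoprime T5 T0 ∧ IsCoprime T5 T1 ∧ IsCoprime T5 T2 ∧ IsCoprime T5 T4) := by
  simp only [IsCoprime.mul_right_iff] at c1 c2 c3 c4 c5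
  obtain ⟨a1, a2⟩ := c1
  obtain ⟨⟨b1, b2⟩, b3⟩ := c2
  obtain ⟨⟨⟨d1, d2⟩, d3⟩, d4⟩ := c3
  obtain ⟨⟨⟨⟨e1, e2⟩, e3⟩, e4⟩, e5⟩ := c4
  obtain ⟨⟨⟨⟨f1, f2⟩, f3⟩, f4⟩, f5⟩ := c5
  exact ⟨⟨a1, a2, b1, b2, b3⟩, ⟨d1, d2, d3, d4⟩, ⟨e1, e2, e3, e4, e5⟩, ⟨f1, f2, f3, f4, f5⟩⟩

/-- coprimality with a factor of `z + a y` -/
theorem s2_fac {a x y z m : ℤ} (h : IsCoprime a z) (he : m * x = z + a * y) : IsCoprime a x := by
  have h1 : IsCoprime a (m * x) := by
    rw [he]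
    exact IsCoprime.add_mul_left_right_iff.2 h
  exact h1.of_mul_right_right

theorem pol5_good_pr {ρ : ℝ} {p : Par} (hg : Geo ρ p) {X : ℕ} (hX : 1 ≤ X) {s : Fin 5 → ℝ}
    (hw : Win p X s) {v w : ℤ × ℤ} (hb : Bas s v w) {t : ℕ → ℕ} (ht : TF (PP X) s v w t) :
    p.GP X (pol5 v w t) := by
  have hX0 : (0 : ℝ) < X := by exact_mod_cast hX
  have hs : ∀ j, 0 < s j := fun j => lt_of_lt_of_le (Real.rpow_pos_of_pos hX0 _) (hw j).1
  have b0 := ht.b0
  have b1 := hb.b1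
  have b2 := ht.b2
  have b3 := hb.b3
  have b4 := ht.b4
  set u4 : ℤ × ℤ := uu v w (t 2) (t 3) with hu4
  set u2 : ℤ × ℤ := uu v w (t 0) (t 1) with hu2
  set u0 : ℤ × ℤ := uu u4 w (t 4) (t 5) with hu0
  have g0 : pol5 v w t 0 = u0 := rfl
  have g1 : pol5 v w t 1 = w := rfl
  have g2 : pol5 v w t 2 = u2 := rfl
  have g3 : pol5 v w t 3 = v := rfl
  have g4 : pol5 v w t 4 = u4 := rfl
  -- the determinants
  have hD : dt v w ≠ 0 := ht.D0.ne'
  obtain ⟨k32, k21⟩ := uu_dt ht.i2 hD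
  obtain ⟨k34, k41⟩ := uu_dt ht.i4 hD
  rw [← hu2] at k32 k21
  rw [← hu4] at k34 k41
  have hi0 := ht.i0
  rw [← hu4] at hi0
  have h41 : dt u4 w ≠ 0 := by
    intro h
    rw [h] at k41
    have := ht.x0
    rw [show t 3 = 0 by exact_mod_cast k41.symm] at this
    exact absurd this (by decide)
  obtain ⟨k40, k01⟩ := uu_dt hi0 h41
  rw [← hu0] at k40 k01
  have k30 := uu_dt' hi0 v
  rw [← hu0, k41, k34] at k30
  have k42 := uu_dt' ht.i2 u4
  rw [← hu2, k41, dt_neg u4 v, k34] at k42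
  have k20 := uu_dt' hi0 u2
  rw [← hu0, k41, k21, dt_neg u2 u4] at k20
  obtain ⟨⟨q1D, q10, q2D, q20, q21⟩, ⟨q3D, q30, q31, q32⟩, ⟨q43, q40, q41, q42, q4x⟩,
    ⟨q5D, q50, q51, q52, q54⟩⟩ := s2_cop _ _ _ _ _ _ _ ht.c1 ht.c2 ht.c3 ht.c4 ht.c5
  have e01 : dt u0 w = t 5 := k01
  have e12 : dt w u2 = -(t 1 : ℤ) := by rw [dt_neg, k21]
  have e23 : dt u2 v = -(t 0 : ℤ) := by rw [dt_neg, k32]
  have e34 : dt v u4 = t 2 := k34
  have e40 : dt u4 u0 = t 4 := k40
  have key : dt v w * t 3 * dt u2 u0 =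
      t 1 * (t 2 * t 5 + t 4 * dt v w) + t 0 * (-(t 3 * t 5 : ℤ)) := by
    linear_combination (dt v w) * k20 - (t 5 : ℤ) * k42
  refine ⟨?_, ?_, ?_, ?_, ?_, ?_, ?_, ?_⟩
  · exact s2_fin5 (s2_pos1 (hs 0) (by norm_num) b0) (s2_pos1 (hs 1) (by norm_num) b1)
      (s2_pos1 (hs 2) (by norm_num) b2) (s2_pos1 (hs 3) (by norm_num) b3)
      (s2_pos1 (hs 4) (by norm_num) b4)
  · exact s2_fin5 (s2_pos2 (hs 0) (by norm_num) b0) (s2_pos2 (hs 1) (by norm_num) b1)
      (s2_pos2 (hs 2) (by norm_num) b2) (s2_pos2 (hs 3) (by norm_num) b3)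
      (s2_pos2 (hs 4) (by norm_num) b4)
  · exact s2_fin5 (s2_low (hs 0) (by norm_num) b0 (hw 0).1)
      (s2_low (hs 1) (by norm_num) b1 (hw 1).1) (s2_low (hs 2) (by norm_num) b2 (hw 2).1)
      (s2_low (hs 3) (by norm_num) b3 (hw 3).1) (s2_low (hs 4) (by norm_num) b4 (hw 4).1)
  · exact s2_fin5 (s2_upp (by norm_num) (hs 0) (by norm_num) (by norm_num) b0 (hw 0).2)
      (s2_upp (by norm_num) (hs 1) (by norm_num) (by norm_num) b1 (hw 1).2)
      (s2_upp (by norm_num) (hs 2) (by norm_num) (by norm_num) b2 (hw 2).2)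
      (s2_upp (by norm_num) (hs 3) (by norm_num) (by norm_num) b3 (hw 3).2)
      (s2_upp (by norm_num) (hs 4) (by norm_num) (by norm_num) b4 (hw 4).2)
  · -- the separation
    have z32 : 1 / 20 * ((nm v : ℝ) * (nm u2 : ℝ)) ≤ (dt v u2 : ℝ) :=
      s2_sep (by norm_num) (hs 3) (hs 2) (by norm_num) (by norm_num) (by norm_num) (by norm_num)
        b3 b2 (by norm_num)
    have z34 : 1 / 20 * ((nm v : ℝ) * (nm u4 : ℝ)) ≤ (dt v u4 : ℝ) :=
      s2_sep (by norm_num) (hs 3) (hs 4) (by norm_num) (by norm_num) (by norm_num) (by norm_num)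
        b3 b4 (by norm_num)
    have z30 : 1 / 20 * ((nm v : ℝ) * (nm u0 : ℝ)) ≤ (dt v u0 : ℝ) :=
      s2_sep (by norm_num) (hs 3) (hs 0) (by norm_num) (by norm_num) (by norm_num) (by norm_num)
        b3 b0 (by norm_num)
    have z31 : 1 / 20 * ((nm v : ℝ) * (nm w : ℝ)) ≤ (dt v w : ℝ) :=
      s2_sep (by norm_num) (hs 3) (hs 1) (by norm_num) (by norm_num) (by norm_num) (by norm_num)
        b3 b1 (by norm_num)
    have z24 : 1 / 20 * ((nm u2 : ℝ) * (nm u4 : ℝ)) ≤ (dt u2 u4 : ℝ) :=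
      s2_sep (by norm_num) (hs 2) (hs 4) (by norm_num) (by norm_num) (by norm_num) (by norm_num)
        b2 b4 (by norm_num)
    have z20 : 1 / 20 * ((nm u2 : ℝ) * (nm u0 : ℝ)) ≤ (dt u2 u0 : ℝ) :=
      s2_sep (by norm_num) (hs 2) (hs 0) (by norm_num) (by norm_num) (by norm_num) (by norm_num)
        b2 b0 (by norm_num)
    have z21 : 1 / 20 * ((nm u2 : ℝ) * (nm w : ℝ)) ≤ (dt u2 w : ℝ) :=
      s2_sep (by norm_num) (hs 2) (hs 1) (by norm_num) (by norm_num) (by norm_num) (by norm_num)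
        b2 b1 (by norm_num)
    have z40 : 1 / 20 * ((nm u4 : ℝ) * (nm u0 : ℝ)) ≤ (dt u4 u0 : ℝ) :=
      s2_sep (by norm_num) (hs 4) (hs 0) (by norm_num) (by norm_num) (by norm_num) (by norm_num)
        b4 b0 (by norm_num)
    have z41 : 1 / 20 * ((nm u4 : ℝ) * (nm w : ℝ)) ≤ (dt u4 w : ℝ) :=
      s2_sep (by norm_num) (hs 4) (hs 1) (by norm_num) (by norm_num) (by norm_num) (by norm_num)
        b4 b1 (by norm_num)
    have z01 : 1 / 20 * ((nm u0 : ℝ) * (nm w : ℝ)) ≤ (dt u0 w : ℝ) :=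
      s2_sep (by norm_num) (hs 0) (hs 1) (by norm_num) (by norm_num) (by norm_num) (by norm_num)
        b0 b1 (by norm_num)
    have up : ∀ {i j : Fin 5} {x y : ℤ × ℤ}, rk5 i < rk5 j →
        1 / 20 * ((nm x : ℝ) * (nm y : ℝ)) ≤ (dt x y : ℝ) →
        p.c1 * ((nm x : ℝ) * (nm y : ℝ)) ≤ (p.sg i j * dt x y : ℝ) := by
      intro i j x y hr h
      rw [hg.c1, hg.sg]
      simp only [sg5, if_pos hr]
      simpa using h
    have dn : ∀ {i j : Fin 5} {x y : ℤ × ℤ}, ¬ rk5 i < rk5 j →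
        1 / 20 * ((nm y : ℝ) * (nm x : ℝ)) ≤ (dt y x : ℝ) →
        p.c1 * ((nm x : ℝ) * (nm y : ℝ)) ≤ (p.sg i j * dt x y : ℝ) := by
      intro i j x y hr h
      rw [hg.c1, hg.sg]
      simp only [sg5, if_neg hr]
      rw [dt_neg x y, mul_comm (nm x : ℝ)]
      push_cast
      linarith
    refine s2_fin5 ?_ ?_ ?_ ?_ ?_
    · exact s2_fin5 (fun h => absurd rfl h) (fun _ => up (by decide) z01)
        (fun _ => dn (by decide) z20) (fun _ => dn (by decide) z30) (fun _ => dn (by decide) z40)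
    · exact s2_fin5 (fun _ => dn (by decide) z01) (fun h => absurd rfl h)
        (fun _ => dn (by decide) z21) (fun _ => dn (by decide) z31) (fun _ => dn (by decide) z41)
    · exact s2_fin5 (fun _ => up (by decide) z20) (fun _ => up (by decide) z21)
        (fun h => absurd rfl h) (fun _ => dn (by decide) z32) (fun _ => up (by decide) z24)
    · exact s2_fin5 (fun _ => up (by decide) z30) (fun _ => up (by decide) z31)
        (fun _ => up (by decide) z32) (fun h => absurd rfl h) (fun _ => up (by decide) z34)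
    · exact s2_fin5 (fun _ => up (by decide) z40) (fun _ => up (by decide) z41)
        (fun _ => dn (by decide) z24) (fun _ => dn (by decide) z34) (fun h => absurd rfl h)
  · -- the support
    obtain ⟨m0, m1, m2, m3, m4⟩ := pol5_det ht
    refine s2_fin5 ?_ ?_ ?_ ?_ ?_
    · exact (congrArg (DP (PP X)) m0).mpr ht.p5
    · exact (congrArg (DP (PP X)) m1).mpr ht.p1
    · exact (congrArg (DP (PP X)) m2).mpr ht.p0
    · exact (congrArg (DP (PP X)) m3).mpr ht.p2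
    · exact (congrArg (DP (PP X)) m4).mpr ht.p4
  · -- the coprimality of the determinants
    have hd : ∀ i : Fin 5, dt (pol5 v w t i) (pol5 v w t (i + 1)) =
        (![(t 5 : ℤ), -(t 1 : ℤ), -(t 0 : ℤ), (t 2 : ℤ), (t 4 : ℤ)] : Fin 5 → ℤ) i :=
      s2_fin5 e01 e12 e23 e34 e40
    intro i j hij
    rw [hd i, hd j]
    revert i j
    refine s2_fin5 ?_ ?_ ?_ ?_ ?_
    · exact s2_fin5 (fun h => absurd rfl h) (fun _ => q51.neg_right) (fun _ => q50.neg_right)
        (fun _ => q52) (fun _ => q54)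
    · exact s2_fin5 (fun _ => q51.symm.neg_left) (fun h => absurd rfl h)
        (fun _ => q10.neg_neg) (fun _ => q21.symm.neg_left) (fun _ => q41.symm.neg_left)
    · exact s2_fin5 (fun _ => q50.symm.neg_left) (fun _ => q10.symm.neg_neg)
        (fun h => absurd rfl h) (fun _ => q20.symm.neg_left) (fun _ => q40.symm.neg_left)
    · exact s2_fin5 (fun _ => q52.symm) (fun _ => q21.neg_right) (fun _ => q20.neg_right)
        (fun h => absurd rfl h) (fun _ => q42.symm)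
    · exact s2_fin5 (fun _ => q54.symm) (fun _ => q41.neg_right) (fun _ => q40.neg_right)
        (fun _ => q42) (fun h => absurd rfl h)
  · -- the other determinants
    have r02 : IsCoprime (dt u0 w) (dt u0 u2) := by
      rw [e01, dt_neg u0 u2]
      refine IsCoprime.neg_right ?_
      exact s2_fac (m := dt v w * t 3) (z := t 1 * (t 4 * dt v w)) (y := t 1 * t 2 - t 0 * t 3)
        (q51.mul_right (q54.mul_right q5D)) (by linear_combination key)
    have r03 : IsCoprime (dt u0 w) (dt u0 v) := by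
      rw [e01, dt_neg u0 v]
      refine IsCoprime.neg_right ?_
      exact s2_fac (z := t 4 * dt v w) (y := t 2) (q54.mul_right q5D) k30
    have r04 : IsCoprime (dt u0 w) (dt u0 u4) := by
      rw [e01, dt_neg u0 u4, e40]
      exact q54.neg_right
    have r10 : IsCoprime (dt w u2) (dt w u0) := by
      rw [e12, dt_neg w u0, e01]
      exact q51.symm.neg_neg
    have r13 : IsCoprime (dt w u2) (dt w v) := by
      rw [e12, dt_neg w v]
      exact q1D.neg_neg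
    have r14 : IsCoprime (dt w u2) (dt w u4) := by
      rw [e12, dt_neg w u4, k41]
      exact q31.symm.neg_neg
    have r20 : IsCoprime (dt u2 v) (dt u2 u0) := by
      rw [e23]
      refine IsCoprime.neg_left ?_
      exact s2_fac (z := t 1 * (t 2 * t 5 + t 4 * dt v w)) (q10.symm.mul_right ht.c6) key
    have r21 : IsCoprime (dt u2 v) (dt u2 w) := by
      rw [e23, k21]
      exact q10.symm.neg_left
    have r24 : IsCoprime (dt u2 v) (dt u2 u4) := by
      rw [e23, dt_neg u2 u4]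
      refine IsCoprime.neg_neg ?_
      exact s2_fac (m := dt v w) (z := -(t 1 * t 2 : ℤ)) (y := t 3)
        (q10.symm.mul_right q20.symm).neg_right (by linear_combination k42)
    have r30 : IsCoprime (dt v u4) (dt v u0) := by
      rw [e34]
      exact s2_fac (m := t 3) (z := t 4 * dt v w) (y := t 5) (q42.symm.mul_right q2D)
        (by linear_combination k30)
    have r31 : IsCoprime (dt v u4) (dt v w) := by
      rw [e34]
      exact q2D
    have r32 : IsCoprime (dt v u4) (dt v u2) := by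
      rw [e34, k32]
      exact q20
    have r41 : IsCoprime (dt u4 u0) (dt u4 w) := by
      rw [e40, k41]
      exact q43
    have r42 : IsCoprime (dt u4 u0) (dt u4 u2) := by
      rw [e40]
      exact s2_fac (m := dt v w) (z := t 0 * t 3 - t 1 * t 2) (y := 0) q4x (by linear_combination k42)
    have r43 : IsCoprime (dt u4 u0) (dt u4 v) := by
      rw [e40, dt_neg u4 v, e34]
      exact q42.neg_right
    refine s2_fin5 ?_ ?_ ?_ ?_ ?_
    · exact s2_fin5 (fun h => absurd rfl h) (fun _ h => absurd rfl h) (fun _ _ => r02)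
        (fun _ _ => r03) (fun _ _ => r04)
    · exact s2_fin5 (fun _ _ => r10) (fun h => absurd rfl h) (fun _ h => absurd rfl h)
        (fun _ _ => r13) (fun _ _ => r14)
    · exact s2_fin5 (fun _ _ => r20) (fun _ _ => r21) (fun h => absurd rfl h)
        (fun _ h => absurd rfl h) (fun _ _ => r24)
    · exact s2_fin5 (fun _ _ => r30) (fun _ _ => r31) (fun _ _ => r32) (fun h => absurd rfl h)
        (fun _ h => absurd rfl h)
    · exact s2_fin5 (fun _ h => absurd rfl h) (fun _ _ => r41) (fun _ _ => r42) (fun _ _ => r43)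
        (fun h => absurd rfl h)

end Pool.Agent.PENT
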